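import Mathlib

set_option autoImplicit false

namespace Pool.Agent.H.MP_ee56ef_an

open Finset MeasureTheory Filter Topology Pointwise

noncomputable def u (β : ℕ → Bool) : ℝ :=
  Real.ofDigits (b := 12) fun j => if β j then 1 else 0

def cons (x : Bool) (β : ℕ → Bool) : ℕ → Bool
  | 0 => x
  | j + 1 => β j

theorem u_cons (x : Bool) (β : ℕ → Bool) : u (cons x β) = ((if x then 1 else 0) + u β) / 12 := by
  rw [u, Real.ofDigits_eq_sum_add_ofDigits _ 1]
  have e : (Real.ofDigits (b := 12) fun i => if cons x β (i + 1) then 1 else 0) = u β := rfl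
  rw [e]
  cases x <;> simp [Real.ofDigitsTerm, cons] <;> ring

theorem u_cont : Continuous u :=
  Real.continuous_ofDigits.comp (continuous_pi fun j =>
    (continuous_of_discreteTopology (f := fun b : Bool => if b then (1 : Fin 12) else 0)).comp
      (continuous_apply j))

theorem u_sum (β : ℕ → Bool) :
    HasSum (fun j => if β j then 1 / (12 : ℝ) ^ (j + 1) else 0) (u β) := by
  have := (Real.summable_ofDigitsTerm (b := 12) (digits := fun j => if β j then 1 else 0)).hasSum
  have e : (fun j => if β j then 1 / (12 : ℝ) ^ (j + 1) else 0) =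
      Real.ofDigitsTerm (b := 12) fun j => if β j then 1 else 0 := by
    funext j
    cases h : β j <;> simp [Real.ofDigitsTerm, h]
  rw [e]; exact this

noncomputable def F (β : Fin 6 → ℕ → Bool) : ℝ :=
  3 * u (β 0) + 2 * (u (β 1) + u (β 2) + u (β 3) + u (β 4) + u (β 5))

theorem F_cont : Continuous F := by
  have := fun i => u_cont.comp (continuous_apply (A := fun _ : Fin 6 => ℕ → Bool) i)
  exact ((this 0).const_mul _).add
    ((((((this 1).add (this 2)).add (this 3)).add (this 4)).add (this 5)).const_mul _)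

def dg (x : Fin 6 → Bool) : ℤ := 3 * (x 0).toInt +
  2 * ((x 1).toInt + (x 2).toInt + (x 3).toInt + (x 4).toInt + (x 5).toInt)

theorem F_cons (x : Fin 6 → Bool) (β : Fin 6 → ℕ → Bool) :
    F (fun i => cons (x i) (β i)) = (dg x + F β) / 12 := by
  have : ∀ b : Bool, (if b then (1 : ℝ) else 0) = (b.toInt : ℝ) := by
    intro b; cases b <;> simp
  simp only [F, u_cons, dg, this]
  push_cast; ring

theorem dg_surj : ∀ r : Fin 12, ∃ x, dg x % 12 = r.val := by decide

theorem cover (x : ℝ) : ∃ β, ∃ z : ℤ, x = F β + z := by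
  let G : Set ℝ := Set.range F + Set.range ((↑) : ℤ → ℝ)
  have hG : IsClosed G :=
    Int.isClosedEmbedding_coe_real.isClosed_range.add_left_of_isCompact (isCompact_range F_cont)
  have mem : ∀ y, y ∈ G ↔ ∃ β, ∃ z : ℤ, y = F β + z := by
    intro y; simp [G, Set.mem_add, eq_comm]
  have step : ∀ k : ℕ, ∀ N : ℤ, (N : ℝ) / 12 ^ k + F (fun _ _ => false) / 12 ^ k ∈ G := by
    intro k
    induction k with
    | zero => intro N; exact (mem _).2 ⟨fun _ _ => false, N, by simp [add_comm]⟩
    | succ k ih =>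
      intro N
      obtain ⟨β, z, h⟩ := (mem _).1 (ih N)
      obtain ⟨d, hd⟩ := dg_surj ⟨(z % 12).toNat, by omega⟩
      obtain ⟨w, hw⟩ : ∃ w : ℤ, z = dg d + 12 * w := ⟨(z - dg d) / 12, by
        simp only at hd; omega⟩
      refine (mem _).2 ⟨fun i => cons (d i) (β i), w, ?_⟩
      have : (z : ℝ) = dg d + 12 * w := by exact_mod_cast hw
      rw [F_cons, pow_succ, ← div_div, ← div_div, ← add_div, h, this]; ring
  rw [← mem]
  have t0 : Tendsto (fun k : ℕ => ((12 : ℝ) ^ k)⁻¹) atTop (𝓝 0) :=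
    tendsto_inv_atTop_zero.comp (tendsto_pow_atTop_atTop_of_one_lt (by norm_num))
  refine hG.mem_of_tendsto (b := atTop) (f := fun k : ℕ => (⌊x * 12 ^ k⌋ : ℝ) / 12 ^ k +
    F (fun _ _ => false) / 12 ^ k) ?_ (Eventually.of_forall fun k => step k _)
  have t1 : Tendsto (fun k : ℕ => (⌊x * 12 ^ k⌋ : ℝ) / 12 ^ k) atTop (𝓝 x) := by
    refine tendsto_of_tendsto_of_tendsto_of_le_of_le (g := fun k : ℕ => x - ((12 : ℝ) ^ k)⁻¹)
      (by simpa using t0.const_sub x) tendsto_const_nhds (fun k => ?_) (fun k => ?_)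
    · have := Int.lt_floor_add_one (x * 12 ^ k)
      have p : (0 : ℝ) < 12 ^ k := by positivity
      rw [le_div_iff₀ p, sub_mul, inv_mul_cancel₀ p.ne']
      linarith
    · exact (div_le_iff₀ (by positivity)).2 (Int.floor_le _)
  simpa [div_eq_mul_inv] using t1.add (t0.const_mul (F fun _ _ => false))

theorem pos (E : Set ℝ) (h : ∀ β, F β / 3 ∈ E) : 0 < volume E := by
  rw [pos_iff_ne_zero]
  intro h0
  have : (Set.univ : Set ℝ) ⊆ ⋃ z : ℤ, (fun x => x + (-z / 3 : ℝ)) ⁻¹' E := by
    intro x _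
    obtain ⟨β, z, e⟩ := cover (3 * x)
    refine Set.mem_iUnion.2 ⟨z, ?_⟩
    have : x + (-z / 3 : ℝ) = F β / 3 := by linarith
    simpa only [Set.mem_preimage, this] using h β
  have h1 : volume (Set.univ : Set ℝ) = 0 := measure_mono_null this (measure_iUnion_null fun z => by
    rw [measure_preimage_add_right]; exact h0)
  simp at h1

theorem prod_sum {m : ℕ} (k : Fin m → ℕ) (γ : Fin m → ℕ → Bool) :
    HasSum (Set.indicator {p : ℕ × Fin m | γ p.2 p.1}
      fun p => (k p.2 : ℝ) / (12 : ℕ) ^ (p.1 + 1)) (∑ i, k i * u (γ i)) := by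
  have h : ∀ i ∈ (univ : Finset (Fin m)), HasSum (fun p : ℕ × Fin m => if p.2 = i then
      k i * (if γ i p.1 then 1 / (12 : ℝ) ^ (p.1 + 1) else 0) else 0) (k i * u (γ i)) := by
    intro i _
    rw [← Function.Injective.hasSum_iff (g := fun j : ℕ => (j, i))
      (fun a b e => congrArg Prod.fst e)]
    · simpa [Function.comp_def] using (u_sum (γ i)).mul_left (k i : ℝ)
    · rintro ⟨j, l⟩ hp
      exact if_neg fun e => hp ⟨j, by rw [← e]⟩
  have e : (Set.indicator {p : ℕ × Fin m | γ p.2 p.1}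
      fun p => (k p.2 : ℝ) / (12 : ℕ) ^ (p.1 + 1)) = fun p : ℕ × Fin m => ∑ i, if p.2 = i then
      (k i : ℝ) * (if γ i p.1 then 1 / (12 : ℝ) ^ (p.1 + 1) else 0) else 0 := by
    funext p
    simp [Set.indicator_apply, div_eq_mul_inv]
  rw [e]; exact hasSum_sum h

end Pool.Agent.H.MP_ee56ef_an
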